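import Pool.Agent.H.MP_a24849_co.C

set_option autoImplicit false

namespace Pool.Agent.Results.MP_a24849_co.Unbounded

open Pool.Agent.H.MP_a24849_co

/-- Q1 has a negative answer: for every `k` there are a finite graph `G` and a family `P` of
partitions of its neighbourhoods with `γ_a(G ∘ P) > |V_G| + k`. -/
theorem result (k : ℕ) :
    ∃ (V : Type) (_ : Fintype V) (G : SimpleGraph V) (P : V → Set (Set V)),
      IsPartFamily G P ∧ Fintype.card V + k < gammaA (corona G P) :=
  main k

end Pool.Agent.Results.MP_a24849_co.Unbounded
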